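import Pool.Agent.RTF.Stmts

/-!
# Squad RTF, module MIDA
-/

namespace Pool.Agent.RTF.H6

open Pool.Agent.Glue Pool.Agent.FB Pool.Agent.CD Pool.Agent.ACT Pool.Agent.RTF
open scoped TensorProduct

noncomputable section

variable {G : Type} [Group G] {I : Type} [Fintype I]

theorem part_equiv (C : Cells G I) {V V' : Type} [AddCommGroup V] [Module F2 V] [AddCommGroup V']
    [Module F2 V'] (σ : Representation F2 G V) (σ' : Representation F2 G V') (e : V →ₗ[F2] V')
    (he : ∀ g v, e (σ g v) = σ' g (e v)) (x : I → V) :
    part C σ' (fun i => e (x i)) = fun i => e (part C σ x i) := by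
  funext j
  change (∑ i, (C.bd i j).coeff.sum fun h c => (c : F2) • σ' h⁻¹ (e (x i))) =
    e (∑ i, (C.bd i j).coeff.sum fun h c => (c : F2) • σ h⁻¹ (x i))
  rw [map_sum]
  refine Finset.sum_congr rfl fun i _ => ?_
  rw [Finsupp.sum, Finsupp.sum, map_sum]
  refine Finset.sum_congr rfl fun h _ => ?_
  rw [map_smul, he]

/-- Homology vanishing is transported by an isomorphism of representations. -/
theorem homV_equiv (C : Cells G I) {V V' : Type} [AddCommGroup V] [Module F2 V] [AddCommGroup V']
    [Module F2 V'] (σ : Representation F2 G V) (σ' : Representation F2 G V') (e : V ≃ₗ[F2] V')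
    (he : ∀ g v, e (σ g v) = σ' g (e v)) (n : ℕ) (h : HomV C σ' n) : HomV C σ n := by
  intro x hx1 hx2
  obtain ⟨y, hy1, hy2⟩ := h (fun i => e (x i))
    (fun i hi => by rw [hx1 i hi, map_zero])
    (by
      have h0 := part_equiv C σ σ' e.toLinearMap he x
      rw [hx2] at h0
      refine h0.trans ?_
      funext i
      exact map_zero e)
  have he' : ∀ g v, e.symm (σ' g v) = σ g (e.symm v) := by
    intro g v
    apply e.injective
    rw [he, e.apply_symm_apply, e.apply_symm_apply]
  refine ⟨fun i => e.symm (y i), fun i hi => ?_, ?_⟩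
  · change e.symm (y i) = 0
    rw [hy1 i hi, map_zero]
  · have h0 := part_equiv C σ' σ e.symm.toLinearMap he' y
    rw [hy2] at h0
    refine h0.trans ?_
    funext i
    exact e.symm_apply_apply (x i)

/-- The anti-automorphism as a linear equivalence. -/
def stE (A : KA G) : A.K ≃ₗ[F2] A.K :=
  { toFun := A.st
    invFun := A.st
    left_inv := A.st_st
    right_inv := A.st_st
    map_add' := A.st.map_add
    map_smul' := by
      intro c x
      exact (AddMonoidHom.toZModLinearMap 2 A.st).map_smul c x }

theorem stE_apply (A : KA G) (x : A.K) : stE A x = A.st x := rfl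

theorem homV_tprod (A : KA G) (C : Cells G I) (n : ℕ)
    (h : HomV C (Representation.tprod A.kR A.kL) n) :
    HomV C (Representation.tprod A.kL A.kL) n := by
  refine homV_equiv C _ _ (TensorProduct.congr (stE A) (LinearEquiv.refl F2 A.K)) ?_ n h
  intro g v
  induction v using TensorProduct.induction_on with
  | zero => simp
  | tmul x y =>
    rw [TensorProduct.congr_tmul, LinearEquiv.refl_apply]
    change TensorProduct.congr (stE A) (LinearEquiv.refl F2 A.K)
      ((A.s g * x) ⊗ₜ[F2] (A.s g * y)) = (stE A x * A.s g⁻¹) ⊗ₜ[F2] (A.s g * y)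
    rw [TensorProduct.congr_tmul, LinearEquiv.refl_apply, stE_apply, stE_apply, A.st_mul, A.st_s]
  | add a b ha hb =>
    rw [map_add, map_add, map_add, map_add, ha, hb]

theorem mida (hDuak : DuakStmt) (hPdl : PdlStmt) (hDbl : DblStmt) (hThs : ThsStmt) :
    MidaStmt := by
  intro G _ A hG I _ C n hC hPD hT
  have h1 : ∀ i, i < n → CohV C (Representation.tprod A.kL A.kL) i := by
    intro i hi
    have h2 := hPdl G I C n hC hPD _ (Representation.tprod A.kL A.kL) (n - i) (Nat.sub_le n i)
      (homV_tprod A C (n - i) (hT (n - i) (by omega)))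
    rwa [show n - (n - i) = i by omega] at h2
  have h3 : ∀ i, 2 * i < n → CohV C A.kL i := by
    intro i hi
    refine hThs G I C hG A.K A.kL i ?_ i le_rfl
    exact hDbl G I C hC _ _ (2 * i) fun q hq => h1 q (by omega)
  intro i hi
  rcases lt_or_gt_of_ne hi with h4 | h4
  · exact h3 i h4
  · by_cases h5 : i ≤ n
    · have h6 := hPdl G I C n hC hPD _ A.kL (n - i) (Nat.sub_le n i)
        (hDuak G A I C (n - i) (h3 (n - i) (by omega)))
      rwa [show n - (n - i) = i by omega] at h6
    · intro f hf _
      have h7 : f = 0 := by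
        funext j
        exact hf j (fun h => h5 (h ▸ hPD.dim j))
      exact ⟨0, fun _ _ => rfl, by rw [h7, map_zero]⟩

end

end Pool.Agent.RTF.H6
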