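import Pool.Agent.RTF.Stmts
import Pool.Agent.Helper6_RTF.Mida
import Pool.Agent.Helper39_CD.Dom

/-!
# Squad RTF, module TORK
-/

namespace Pool.Agent.RTF.H6

open Pool.Agent.Glue Pool.Agent.FB Pool.Agent.CD Pool.Agent.ACT Pool.Agent.RTF
open scoped TensorProduct

noncomputable section

/-! ## Induced modules -/

section ind

variable {G H : Type} [Group G] [Group H] {V V' : Type} [AddCommGroup V] [Module F2 V]
  [AddCommGroup V'] [Module F2 V']

/-- The map of induced modules. -/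
def indMap (ι : H →* G) (σ : Representation F2 H V) (σ' : Representation F2 H V')
    (e : V →ₗ[F2] V') (he : ∀ h v, e (σ h v) = σ' h (e v)) : IndM ι σ →ₗ[F2] IndM ι σ' where
  toFun f := ⟨fun g => e ((f : G → V) g), by
    obtain ⟨h1, S, h2⟩ := f.2
    refine ⟨fun k g => ?_, S, fun g hg => h2 g ?_⟩
    · change e ((f : G → V) (ι k * g)) = _
      rw [h1, he]
    · intro h0
      apply hg
      change e ((f : G → V) g) = 0
      rw [h0, map_zero]⟩
  map_add' a b := by
    apply Subtype.ext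
    funext g
    exact map_add e _ _
  map_smul' c a := by
    apply Subtype.ext
    funext g
    exact map_smul e _ _

theorem indMap_apply (ι : H →* G) (σ : Representation F2 H V) (σ' : Representation F2 H V')
    (e : V →ₗ[F2] V') (he : ∀ h v, e (σ h v) = σ' h (e v)) (f : IndM ι σ) (g : G) :
    (indMap ι σ σ' e he f : G → V') g = e ((f : G → V) g) := rfl

theorem part_indMap {I : Type} [Fintype I] (C : Cells G I) (ι : H →* G)
    (σ : Representation F2 H V) (σ' : Representation F2 H V')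
    (e : V →ₗ[F2] V') (he : ∀ h v, e (σ h v) = σ' h (e v)) (x : I → IndM ι σ) :
    part C (indR ι σ') (fun i => indMap ι σ σ' e he (x i)) =
      fun i => indMap ι σ σ' e he (part C (indR ι σ) x i) :=
  part_equiv C (indR ι σ) (indR ι σ') (indMap ι σ σ' e he) (fun _ _ => rfl) x

/-- The restriction of a representation to an invariant subspace. -/
def subR (σ : Representation F2 H V) (P : Submodule F2 V) (hP : ∀ h, ∀ v ∈ P, σ h v ∈ P) :
    Representation F2 H P where
  toFun h := (σ h).restrict (hP h)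
  map_one' := by
    ext v
    simp
  map_mul' a b := by
    ext v
    simp

end ind

/-! ## The tensor square -/

section tens

variable {H : Type} [Group H] {F : SF H} (D : KD H F)

/-- The coefficients. -/
def coL : D.K →ₗ[F2] (H → F2) :=
  AddMonoidHom.toZModLinearMap 2 (F.co.comp D.p.toAddMonoidHom)

theorem coL_apply (x : D.K) : coL D x = F.co (D.p x) := rfl

theorem coL_inj : Function.Injective (coL D) := by
  intro x y h
  rw [coL_apply, coL_apply] at h
  exact D.p.injective (F.co_inj h)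

open Classical in
theorem coL_s (g x : H) : coL D (D.s g) x = if x = g then 1 else 0 := by
  rw [coL_apply, D.ps, F.co_sg]

theorem coL_mul (u v : D.K) (x : H) :
    coL D (u * v) x = ∑ᶠ y, coL D u y * coL D v (y⁻¹ * x) := by
  rw [coL_apply, map_mul, F.co_mul]
  rfl

/-- The coefficients of an element of the tensor square. -/
def Th : (D.K ⊗[F2] D.K) →ₗ[F2] (H × H → F2) :=
  TensorProduct.lift (LinearMap.mk₂ F2 (fun u v (x : H × H) => coL D u x.1 * coL D v x.2)
    (by intro a b v; funext x; simp [add_mul])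
    (by intro c a v; funext x; simp [mul_assoc])
    (by intro a v w; funext x; simp [mul_add])
    (by intro c a v; funext x; simp [mul_left_comm]))

theorem Th_tmul (u v : D.K) (x : H × H) : Th D (u ⊗ₜ v) x = coL D u x.1 * coL D v x.2 := rfl

/-- Evaluation of the first factor. -/
def evL (x : H) : (D.K ⊗[F2] D.K) →ₗ[F2] D.K :=
  TensorProduct.lift (LinearMap.mk₂ F2 (fun u v => coL D u x • v)
    (by intro a b v; simp [add_smul])
    (by intro c a v; simp [mul_smul])
    (by intro a v w; simp)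
    (by intro c a v; rw [smul_comm]))

/-- Evaluation of the second factor. -/
def evR (y : H) : (D.K ⊗[F2] D.K) →ₗ[F2] D.K :=
  TensorProduct.lift (LinearMap.mk₂ F2 (fun u v => coL D v y • u)
    (by intro a b v; simp)
    (by intro c a v; rw [smul_comm])
    (by intro a v w; simp [add_smul])
    (by intro c a v; simp [mul_smul]))

theorem evL_tmul (x : H) (u v : D.K) : evL D x (u ⊗ₜ v) = coL D u x • v := rfl

theorem evR_tmul (y : H) (u v : D.K) : evR D y (u ⊗ₜ v) = coL D v y • u := rfl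

theorem Th_evL (w : D.K ⊗[F2] D.K) (x y : H) : Th D w (x, y) = coL D (evL D x w) y := by
  induction w using TensorProduct.induction_on with
  | zero => simp
  | tmul u v =>
    rw [Th_tmul, evL_tmul, map_smul]
    rfl
  | add a b ha hb =>
    rw [map_add, map_add, map_add, Pi.add_apply, Pi.add_apply, ha, hb]

theorem Th_evR (w : D.K ⊗[F2] D.K) (x y : H) : Th D w (x, y) = coL D (evR D y w) x := by
  induction w using TensorProduct.induction_on with
  | zero => simp
  | tmul u v =>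
    rw [Th_tmul, evR_tmul, map_smul]
    exact mul_comm _ _
  | add a b ha hb =>
    rw [map_add, map_add, map_add, Pi.add_apply, Pi.add_apply, ha, hb]

theorem Th_inj : Function.Injective (Th D) := by
  classical
  rw [← LinearMap.ker_eq_bot, LinearMap.ker_eq_bot']
  intro w hw
  let b := Module.Basis.ofVectorSpace F2 D.K
  let e := TensorProduct.equivFinsuppOfBasisRight (M := D.K) b
  have h0 : ∀ x, evL D x w = 0 := by
    intro x
    apply coL_inj D
    rw [map_zero]
    funext y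
    rw [← Th_evL, hw]
    rfl
  have h1 : w = (e w).sum fun i m => m ⊗ₜ[F2] b i := by
    conv_lhs => rw [← e.symm_apply_apply w]
    exact TensorProduct.equivFinsuppOfBasisRight_symm_apply b (e w)
  have h2 : e w = 0 := by
    ext i
    have h3 : ∀ x, coL D (e w i) x = 0 := by
      intro x
      have h4 := h0 x
      rw [h1, Finsupp.sum, map_sum] at h4
      simp only [evL_tmul] at h4
      have h5 := linearIndependent_iff'.1 b.linearIndependent (e w).support
        (fun i => coL D (e w i) x) h4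
      by_cases hi : i ∈ (e w).support
      · exact h5 i hi
      · rw [Finsupp.notMem_support_iff.1 hi, map_zero]
        rfl
    apply coL_inj D
    rw [Finsupp.zero_apply, map_zero]
    funext x
    exact h3 x
  exact e.injective (h2.trans (map_zero e).symm)

/-- Left multiplication of the first factor and right multiplication of the second factor. -/
def lr (c d : D.K) : (D.K ⊗[F2] D.K) →ₗ[F2] (D.K ⊗[F2] D.K) :=
  TensorProduct.map (LinearMap.mulLeft F2 c) (LinearMap.mulRight F2 d)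

theorem lr_tmul (c d u v : D.K) : lr D c d (u ⊗ₜ v) = (c * u) ⊗ₜ (v * d) := rfl

theorem lr_lr (c d c' d' : D.K) (w : D.K ⊗[F2] D.K) :
    lr D c d (lr D c' d' w) = lr D (c * c') (d' * d) w := by
  induction w using TensorProduct.induction_on with
  | zero => simp
  | tmul u v =>
    rw [lr_tmul, lr_tmul, lr_tmul, mul_assoc, mul_assoc]
  | add a b ha hb =>
    rw [map_add, map_add, map_add, ha, hb]

theorem lr_one (w : D.K ⊗[F2] D.K) : lr D 1 1 w = w := by
  induction w using TensorProduct.induction_on with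
  | zero => simp
  | tmul u v =>
    rw [lr_tmul, one_mul, mul_one]
  | add a b ha hb =>
    rw [map_add, ha, hb]

theorem lr_sum {A B : Type} (s : Finset A) (t : Finset B) (c : A → D.K) (d : B → D.K)
    (w : D.K ⊗[F2] D.K) :
    lr D (∑ a ∈ s, c a) (∑ b ∈ t, d b) w = ∑ a ∈ s, ∑ b ∈ t, lr D (c a) (d b) w := by
  induction w using TensorProduct.induction_on with
  | zero => simp
  | tmul u v =>
    simp only [lr_tmul]
    rw [Finset.sum_mul, Finset.mul_sum, TensorProduct.sum_tmul]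
    refine Finset.sum_congr rfl fun a _ => ?_
    rw [TensorProduct.tmul_sum]
  | add a b ha hb =>
    simp only [map_add, Finset.sum_add_distrib]
    rw [ha, hb]

/-- The representation on the tensor square. -/
abbrev sig : Representation F2 H (D.K ⊗[F2] D.K) := Representation.tprod D.kR D.kL

theorem sig_tmul (h : H) (u v : D.K) : sig D h (u ⊗ₜ v) = (u * D.s h⁻¹) ⊗ₜ (D.s h * v) := rfl

theorem lr_sig (c d : D.K) (h : H) (w : D.K ⊗[F2] D.K) :
    lr D c d (sig D h w) = sig D h (lr D c d w) := by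
  induction w using TensorProduct.induction_on with
  | zero => simp
  | tmul u v =>
    rw [sig_tmul, lr_tmul, lr_tmul, sig_tmul, mul_assoc, mul_assoc]
  | add a b ha hb =>
    rw [map_add, map_add, map_add, map_add, ha, hb]

theorem Th_sig (h : H) (w : D.K ⊗[F2] D.K) (x y : H) :
    Th D (sig D h w) (x, y) = Th D w (x * h, h⁻¹ * y) := by
  induction w using TensorProduct.induction_on with
  | zero => simp
  | tmul u v =>
    rw [sig_tmul, Th_tmul, Th_tmul]
    congr 1
    · rw [coL_apply, map_mul, D.ps, Pool.Agent.CD.H39.co_mul_sg, inv_inv]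
      rfl
    · rw [coL_apply, map_mul, D.ps, Pool.Agent.CD.H39.co_sg_mul]
      rfl
  | add a b ha hb =>
    rw [map_add, map_add, map_add, Pi.add_apply, Pi.add_apply, ha, hb]

/-- Locality. -/
theorem loc (c d : D.K) (w : D.K ⊗[F2] D.K) (x y : H)
    (h : ∀ α β, coL D c α ≠ 0 → coL D d β ≠ 0 → Th D w (α⁻¹ * x, y * β⁻¹) = 0) :
    Th D (lr D c d w) (x, y) = 0 := by
  have h1 : ∀ α, coL D c α ≠ 0 → Th D (lr D 1 d w) (α⁻¹ * x, y) = 0 := by
    intro α hα
    have h2 : evL D (α⁻¹ * x) (lr D 1 d w) = evL D (α⁻¹ * x) w * d := by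
      clear h
      induction w using TensorProduct.induction_on with
      | zero => simp
      | tmul u v => rw [lr_tmul, evL_tmul, evL_tmul, one_mul, smul_mul_assoc]
      | add a b ha hb => rw [map_add, map_add, map_add, ha, hb, add_mul]
    rw [Th_evL, h2, coL_mul]
    refine finsum_eq_zero_of_forall_eq_zero fun β => ?_
    by_cases hβ : coL D d (β⁻¹ * y) = 0
    · rw [hβ, mul_zero]
    · have h3 := h α (β⁻¹ * y) hα hβ
      rw [show y * (β⁻¹ * y)⁻¹ = β by group, Th_evL] at h3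
      rw [h3, zero_mul]
  have h2 : evR D y (lr D c d w) = c * evR D y (lr D 1 d w) := by
    clear h h1
    induction w using TensorProduct.induction_on with
    | zero => simp
    | tmul u v => rw [lr_tmul, evR_tmul, lr_tmul, evR_tmul, one_mul, mul_smul_comm]
    | add a b ha hb => rw [map_add, map_add, map_add, map_add, ha, hb, mul_add]
  rw [Th_evR, h2, coL_mul]
  refine finsum_eq_zero_of_forall_eq_zero fun α => ?_
  by_cases hα : coL D c α = 0
  · rw [hα, zero_mul]
  · rw [← Th_evR, h1 α hα, mul_zero]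

/-! ## Elements with finite fibres -/

/-- The span of the products of elements finite on the cosets of `B`. -/
def FPs (B : Subgroup H) : Submodule F2 (D.K ⊗[F2] D.K) :=
  Submodule.span F2 {w | ∃ u v, FinOn F B (D.p u) ∧ FinOn F B (D.p v) ∧ w = u ⊗ₜ v}

theorem finOn_sg_mul (B : Subgroup H) {v : F.U} (h : H) (hv : FinOn F B v) :
    FinOn F B (F.sg h * v) := by
  intro g
  refine ((hv (h⁻¹ * g)).image fun x => h * x).subset ?_
  rintro x ⟨h1, h2⟩
  rw [Pool.Agent.CD.H39.co_sg_mul] at h1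
  refine ⟨h⁻¹ * x, ⟨h1, ?_⟩, ?_⟩
  · rwa [show (h⁻¹ * g)⁻¹ * (h⁻¹ * x) = g⁻¹ * x by group]
  · change h * (h⁻¹ * x) = x
    group

theorem finOn_mul_sg (B : Subgroup H) (hB : B.Normal) {v : F.U} (h : H) (hv : FinOn F B v) :
    FinOn F B (v * F.sg h) := by
  intro g
  refine ((hv (g * h⁻¹)).image fun x => x * h).subset ?_
  rintro x ⟨h1, h2⟩
  rw [Pool.Agent.CD.H39.co_mul_sg] at h1
  refine ⟨x * h⁻¹, ⟨h1, ?_⟩, ?_⟩
  · have h3 := hB.conj_mem _ h2 h
    rwa [show h * (g⁻¹ * x) * h⁻¹ = (g * h⁻¹)⁻¹ * (x * h⁻¹) by group] at h3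
  · change x * h⁻¹ * h = x
    group

theorem fps_sig (B : Subgroup H) (hB : B.Normal) (h : H) :
    ∀ w ∈ FPs D B, sig D h w ∈ FPs D B := by
  intro w hw
  unfold FPs at hw
  induction hw using Submodule.span_induction with
  | mem x hx =>
    obtain ⟨u, v, hu, hv, rfl⟩ := hx
    rw [sig_tmul]
    refine Submodule.subset_span ⟨_, _, ?_, ?_, rfl⟩
    · rw [map_mul, D.ps]
      exact finOn_mul_sg B hB _ hu
    · rw [map_mul, D.ps]
      exact finOn_sg_mul B _ hv
  | zero => rw [map_zero]; exact Submodule.zero_mem _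
  | add x y _ _ hx hy => rw [map_add]; exact Submodule.add_mem _ hx hy
  | smul c x _ hx => rw [map_smul]; exact Submodule.smul_mem _ _ hx

theorem exists_fps (hKr : KrStmt) (T : CF H) (ho : F.o = T.ord) (w : D.K ⊗[F2] D.K) :
    ∃ j, ∀ i, j ≤ i → w ∈ FPs D (T.M i) := by
  induction w using TensorProduct.induction_on with
  | zero => exact ⟨0, fun i _ => Submodule.zero_mem _⟩
  | tmul u v =>
    obtain ⟨j, hj⟩ := hKr H T F ho D u
    obtain ⟨l, hl⟩ := hKr H T F ho D v
    exact ⟨max j l, fun i hi => Submodule.subset_span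
      ⟨u, v, hj i (le_trans (le_max_left _ _) hi), hl i (le_trans (le_max_right _ _) hi), rfl⟩⟩
  | add a b ha hb =>
    obtain ⟨j, hj⟩ := ha
    obtain ⟨l, hl⟩ := hb
    exact ⟨max j l, fun i hi => Submodule.add_mem _
      (hj i (le_trans (le_max_left _ _) hi)) (hl i (le_trans (le_max_right _ _) hi))⟩

theorem fin_fib (hneu : NeuStmt) (B : Subgroup H) [B.Normal] (hB : F.o.Conv B)
    (w : D.K ⊗[F2] D.K) (hw : w ∈ FPs D B) (q : H ⧸ B) :
    {x : H × H | Th D w x ≠ 0 ∧ ((x.1 * x.2 : H) : H ⧸ B) = q}.Finite := by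
  unfold FPs at hw
  induction hw using Submodule.span_induction with
  | mem x hx =>
    obtain ⟨u, v, hu, hv, rfl⟩ := hx
    have h1 := hneu H F.o B hB _ _ (F.wo (D.p u)) (F.wo (D.p v)) q
    refine (h1.biUnion (t := fun c => {x | F.co (D.p u) x ≠ 0 ∧ c.out⁻¹ * x ∈ B} ×ˢ
      {x | F.co (D.p v) x ≠ 0 ∧ (c⁻¹ * q).out⁻¹ * x ∈ B}) fun c _ =>
        (hu c.out).prod (hv (c⁻¹ * q).out)).subset ?_
    rintro ⟨x, y⟩ ⟨h2, h3⟩
    rw [Th_tmul] at h2
    have h4 : F.co (D.p u) x ≠ 0 := left_ne_zero_of_mul h2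
    have h5 : F.co (D.p v) y ≠ 0 := right_ne_zero_of_mul h2
    have h6 : ((y : H) : H ⧸ B) = ((x : H) : H ⧸ B)⁻¹ * q := by
      rw [← h3, QuotientGroup.mk_mul, inv_mul_cancel_left]
    refine Set.mem_biUnion (x := ((x : H) : H ⧸ B)) ⟨⟨x, h4, rfl⟩, y, h5, h6⟩ ?_
    refine ⟨⟨h4, ?_⟩, h5, ?_⟩
    · rw [← QuotientGroup.eq, QuotientGroup.out_eq']
    · rw [← QuotientGroup.eq, QuotientGroup.out_eq']
      exact h6.symm
  | zero =>
    refine Set.finite_empty.subset ?_
    rintro x ⟨h, -⟩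
    rw [map_zero] at h
    exact h rfl
  | add x y _ _ hx hy =>
    refine (hx.union hy).subset ?_
    rintro z ⟨h1, h2⟩
    by_cases h3 : Th D x z = 0
    · right
      refine ⟨fun h4 => h1 ?_, h2⟩
      rw [map_add, Pi.add_apply, h3, h4, add_zero]
    · exact Or.inl ⟨h3, h2⟩
  | smul c x _ hx =>
    refine hx.subset ?_
    rintro z ⟨h1, h2⟩
    refine ⟨fun h4 => h1 ?_, h2⟩
    rw [map_smul, Pi.smul_apply, h4, smul_zero]

open Classical in
/-- The part of an element over a class. -/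
def kap (hneu : NeuStmt) (B : Subgroup H) [B.Normal] (hB : F.o.Conv B) (q : H ⧸ B) :
    FPs D B →ₗ[F2] ((H × H) →₀ F2) where
  toFun w := Finsupp.ofSupportFinite
    (fun x => if ((x.1 * x.2 : H) : H ⧸ B) = q then Th D (w : D.K ⊗[F2] D.K) x else 0) (by
      refine (fin_fib D hneu B hB w.1 w.2 q).subset ?_
      intro x hx
      rw [Function.mem_support] at hx
      split_ifs at hx with h
      · exact ⟨hx, h⟩
      · exact absurd rfl hx)
  map_add' a b := by
    ext x
    change (if ((x.1 * x.2 : H) : H ⧸ B) = q then Th D ((a + b : FPs D B) : D.K ⊗[F2] D.K) x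
      else 0) = (if ((x.1 * x.2 : H) : H ⧸ B) = q then Th D (a : D.K ⊗[F2] D.K) x else 0) +
        (if ((x.1 * x.2 : H) : H ⧸ B) = q then Th D (b : D.K ⊗[F2] D.K) x else 0)
    split_ifs
    · rw [Submodule.coe_add, map_add]
      rfl
    · rw [add_zero]
  map_smul' c a := by
    ext x
    change (if ((x.1 * x.2 : H) : H ⧸ B) = q then Th D ((c • a : FPs D B) : D.K ⊗[F2] D.K) x
      else 0) = c * (if ((x.1 * x.2 : H) : H ⧸ B) = q then Th D (a : D.K ⊗[F2] D.K) x else 0)
    split_ifs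
    · rw [Submodule.coe_smul, map_smul]
      rfl
    · rw [mul_zero]

open Classical in
theorem kap_apply (hneu : NeuStmt) (B : Subgroup H) [B.Normal] (hB : F.o.Conv B) (q : H ⧸ B)
    (w : FPs D B) (x : H × H) : kap D hneu B hB q w x =
      if ((x.1 * x.2 : H) : H ⧸ B) = q then Th D (w : D.K ⊗[F2] D.K) x else 0 := rfl

theorem qRep_apply (h : H) (φ : (H × H) →₀ F2) (x y : H) :
    qRep H h φ (x, y) = φ (x * h, h⁻¹ * y) := by
  change Finsupp.mapDomain (fun x : H × H => (x.1 * h⁻¹, h * x.2)) φ (x, y) = _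
  have hf : Function.Injective (fun x : H × H => (x.1 * h⁻¹, h * x.2)) := by
    rintro ⟨a, b⟩ ⟨c, d⟩ h1
    rw [Prod.mk.injEq] at h1
    exact Prod.ext (mul_right_cancel h1.1) (mul_left_cancel h1.2)
  have h2 := Finsupp.mapDomain_apply hf φ (x * h, h⁻¹ * y)
  rw [← h2]
  congr 1
  refine Prod.ext ?_ ?_
  · change x = x * h * h⁻¹
    group
  · change y = h * (h⁻¹ * y)
    group

theorem kap_sig (hneu : NeuStmt) (B : Subgroup H) [hBn : B.Normal] (hB : F.o.Conv B) (q : H ⧸ B)
    (h : H) (w : FPs D B) : kap D hneu B hB q (subR (sig D) (FPs D B) (fps_sig D B hBn) h w) =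
      qRep H h (kap D hneu B hB q w) := by
  classical
  ext ⟨x, y⟩
  rw [qRep_apply, kap_apply, kap_apply]
  change (if ((x * y : H) : H ⧸ B) = q then Th D (sig D h w) (x, y) else 0) = _
  rw [Th_sig, show x * h * (h⁻¹ * y) = x * y by group]

/-- The group ring in the tensor square. -/
def Phi : ((H × H) →₀ F2) →ₗ[F2] (D.K ⊗[F2] D.K) :=
  Finsupp.linearCombination F2 (fun x : H × H => D.s x.1 ⊗ₜ[F2] D.s x.2)

theorem Phi_single (x : H × H) (c : F2) :
    Phi D (Finsupp.single x c) = c • (D.s x.1 ⊗ₜ[F2] D.s x.2) :=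
  Finsupp.linearCombination_single _ _ _

theorem Th_Phi (φ : (H × H) →₀ F2) (x : H × H) : Th D (Phi D φ) x = φ x := by
  classical
  induction φ using Finsupp.induction_linear with
  | zero => simp
  | add a b ha hb => rw [map_add, map_add, Pi.add_apply, Finsupp.add_apply, ha, hb]
  | single y c =>
    rw [Phi_single, map_smul, Pi.smul_apply, Th_tmul, coL_s, coL_s, Finsupp.single_apply,
      smul_eq_mul]
    by_cases h : y = x
    · subst h
      simp
    · rw [if_neg h]
      by_cases h1 : x.1 = y.1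
      · rw [if_neg (fun h2 : x.2 = y.2 => h (Prod.ext h1.symm h2.symm)), mul_zero, mul_zero]
      · rw [if_neg h1, zero_mul, mul_zero]

theorem Phi_sig (h : H) (φ : (H × H) →₀ F2) : Phi D (qRep H h φ) = sig D h (Phi D φ) := by
  apply Th_inj D
  funext x
  obtain ⟨x, y⟩ := x
  rw [Th_Phi, Th_sig, Th_Phi, qRep_apply]

/-! ## Splitting over the classes -/

theorem mk_of_ne (B : Subgroup H) (hB : B.Normal) {c : D.K} (hc : D.InB B c) (a α : H)
    (h : coL D (c * D.s a) α ≠ 0) : ((α : H) : H ⧸ B) = ((a : H) : H ⧸ B) := by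
  rw [coL_apply, map_mul, D.ps, Pool.Agent.CD.H39.co_mul_sg] at h
  have h1 := hc _ h
  rw [eq_comm, QuotientGroup.eq]
  have h2 := hB.conj_mem _ h1 a⁻¹
  rwa [show a⁻¹ * (α * a⁻¹) * a⁻¹⁻¹ = a⁻¹ * α by group] at h2

theorem cov_inS (B : Subgroup H) (hB : B.Normal) {x : D.K} (h : D.InS B x) :
    ∃ A : Finset H, ∀ α, coL D x α ≠ 0 → ∃ a ∈ A, ((α : H) : H ⧸ B) = ((a : H) : H ⧸ B) := by
  obtain ⟨A, c, hc, rfl⟩ := h
  refine ⟨A, fun α hα => ?_⟩
  rw [map_sum, Finset.sum_apply] at hα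
  obtain ⟨a, ha, h1⟩ := Finset.exists_ne_zero_of_sum_ne_zero hα
  exact ⟨a, ha, mk_of_ne D B hB (hc a ha) a α h1⟩

theorem fin_cls (B : Subgroup H) [hB : B.Normal] (X : Finset D.K) (s r : D.K)
    (hs : ∀ x ∈ X, D.InS B (s * x)) (hr : ∀ x ∈ X, D.InS B (x * r)) (w : D.K ⊗[F2] D.K)
    (hw : w ∈ Submodule.span F2 {w | ∃ u ∈ X, ∃ v ∈ X, w = u ⊗ₜ[F2] v}) :
    ∃ Q : Finset (H ⧸ B), ∀ x y, Th D (lr D s r w) (x, y) ≠ 0 → ((x * y : H) : H ⧸ B) ∈ Q := by
  classical
  induction hw using Submodule.span_induction with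
  | mem w hw =>
    obtain ⟨u, hu, v, hv, rfl⟩ := hw
    obtain ⟨A, hA⟩ := cov_inS D B hB (hs u hu)
    obtain ⟨A', hA'⟩ := cov_inS D B hB (hr v hv)
    refine ⟨(A ×ˢ A').image fun a => ((a.1 : H) : H ⧸ B) * ((a.2 : H) : H ⧸ B), ?_⟩
    intro x y h
    rw [lr_tmul, Th_tmul] at h
    obtain ⟨a, ha, h1⟩ := hA x (left_ne_zero_of_mul h)
    obtain ⟨a', ha', h2⟩ := hA' y (right_ne_zero_of_mul h)
    rw [Finset.mem_image]
    refine ⟨(a, a'), Finset.mem_product.2 ⟨ha, ha'⟩, ?_⟩
    rw [QuotientGroup.mk_mul, h1, h2]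
  | zero =>
    refine ⟨∅, fun x y h => ?_⟩
    rw [map_zero, map_zero] at h
    exact absurd rfl h
  | add a b _ _ ha hb =>
    obtain ⟨Q, hQ⟩ := ha
    obtain ⟨Q', hQ'⟩ := hb
    refine ⟨Q ∪ Q', fun x y h => ?_⟩
    rw [Finset.mem_union]
    by_cases h1 : Th D (lr D s r a) (x, y) = 0
    · right
      refine hQ' x y fun h2 => h ?_
      rw [map_add, map_add, Pi.add_apply, h1, h2, add_zero]
    · exact Or.inl (hQ x y h1)
  | smul c a _ ha =>
    obtain ⟨Q, hQ⟩ := ha
    refine ⟨Q, fun x y h => hQ x y fun h1 => h ?_⟩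
    rw [map_smul, map_smul, Pi.smul_apply, h1, smul_zero]

theorem exists_fin (w : D.K ⊗[F2] D.K) : ∃ X : Finset D.K,
    w ∈ Submodule.span F2 {w | ∃ u ∈ X, ∃ v ∈ X, w = u ⊗ₜ[F2] v} := by
  classical
  induction w using TensorProduct.induction_on with
  | zero => exact ⟨∅, Submodule.zero_mem _⟩
  | tmul u v =>
    exact ⟨{u, v}, Submodule.subset_span ⟨u, by simp, v, by simp, rfl⟩⟩
  | add a b ha hb =>
    obtain ⟨X, hX⟩ := ha
    obtain ⟨Y, hY⟩ := hb
    refine ⟨X ∪ Y, Submodule.add_mem _ (Submodule.span_mono ?_ hX) (Submodule.span_mono ?_ hY)⟩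
    · rintro w ⟨u, hu, v, hv, h⟩
      exact ⟨u, Finset.mem_union_left _ hu, v, Finset.mem_union_left _ hv, h⟩
    · rintro w ⟨u, hu, v, hv, h⟩
      exact ⟨u, Finset.mem_union_right _ hu, v, Finset.mem_union_right _ hv, h⟩

theorem term (hneu : NeuStmt) (B : Subgroup H) [hBn : B.Normal] (hB : F.o.Conv B)
    (c d : D.K) (hc : D.InB B c) (hd : D.InB B d) (a b : H) (q : H ⧸ B) (w : FPs D B) (x y : H) :
    (((x * y : H) : H ⧸ B) = q →
      Th D (lr D (c * D.s a) (d * D.s b) (Phi D (kap D hneu B hB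
        (((a : H) : H ⧸ B)⁻¹ * q * ((b : H) : H ⧸ B)⁻¹) w))) (x, y) =
      Th D (lr D (c * D.s a) (d * D.s b) (w : D.K ⊗[F2] D.K)) (x, y)) ∧
    (((x * y : H) : H ⧸ B) ≠ q →
      Th D (lr D (c * D.s a) (d * D.s b) (Phi D (kap D hneu B hB
        (((a : H) : H ⧸ B)⁻¹ * q * ((b : H) : H ⧸ B)⁻¹) w))) (x, y) = 0) := by
  have hcls : ∀ α β, coL D (c * D.s a) α ≠ 0 → coL D (d * D.s b) β ≠ 0 →
      ((α⁻¹ * x * (y * β⁻¹) : H) : H ⧸ B) =
        ((a : H) : H ⧸ B)⁻¹ * ((x * y : H) : H ⧸ B) * ((b : H) : H ⧸ B)⁻¹ := by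
    intro α β hα hβ
    rw [← mk_of_ne D B hBn hc a α hα, ← mk_of_ne D B hBn hd b β hβ]
    rw [show α⁻¹ * x * (y * β⁻¹) = α⁻¹ * (x * y) * β⁻¹ by group]
    rfl
  constructor
  · intro h
    rw [← sub_eq_zero]
    change (Th D _ - Th D _) (x, y) = 0
    rw [← map_sub, ← map_sub]
    refine loc D _ _ _ x y fun α β hα hβ => ?_
    rw [map_sub, Pi.sub_apply, Th_Phi, kap_apply, if_pos, sub_self]
    rw [← h]
    exact hcls α β hα hβ
  · intro h
    refine loc D _ _ _ x y fun α β hα hβ => ?_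
    rw [Th_Phi, kap_apply, if_neg]
    intro h1
    apply h
    have h2 := hcls α β hα hβ
    have h3 := h2.symm.trans h1
    exact mul_left_cancel (mul_right_cancel h3)

theorem split (hneu : NeuStmt) (B : Subgroup H) [hBn : B.Normal] (hB : F.o.Conv B)
    (A A' : Finset H) (c d : H → D.K) (hc : ∀ a ∈ A, D.InB B (c a)) (hd : ∀ b ∈ A', D.InB B (d b))
    (s r : D.K) (hs : s = ∑ a ∈ A, c a * D.s a) (hr : r = ∑ b ∈ A', d b * D.s b)
    (Q : Finset (H ⧸ B)) (w : FPs D B)
    (hQ : ∀ x y, Th D (lr D s r w) (x, y) ≠ 0 → ((x * y : H) : H ⧸ B) ∈ Q) :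
    ∑ q ∈ Q, ∑ a ∈ A, ∑ b ∈ A', lr D (c a * D.s a) (d b * D.s b)
      (Phi D (kap D hneu B hB (((a : H) : H ⧸ B)⁻¹ * q * ((b : H) : H ⧸ B)⁻¹) w)) =
      lr D s r w := by
  classical
  apply Th_inj D
  funext xy
  obtain ⟨x, y⟩ := xy
  have h1 : ∀ q, Th D (∑ a ∈ A, ∑ b ∈ A', lr D (c a * D.s a) (d b * D.s b)
      (Phi D (kap D hneu B hB (((a : H) : H ⧸ B)⁻¹ * q * ((b : H) : H ⧸ B)⁻¹) w))) (x, y) =
      if ((x * y : H) : H ⧸ B) = q then Th D (lr D s r w) (x, y) else 0 := by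
    intro q
    by_cases h : ((x * y : H) : H ⧸ B) = q
    · rw [if_pos h, hs, hr, lr_sum]
      simp only [map_sum, Finset.sum_apply]
      refine Finset.sum_congr rfl fun a ha => Finset.sum_congr rfl fun b hb => ?_
      exact (term D hneu B hB (c a) (d b) (hc a ha) (hd b hb) a b q w x y).1 h
    · rw [if_neg h]
      simp only [map_sum, Finset.sum_apply]
      refine Finset.sum_eq_zero fun a ha => Finset.sum_eq_zero fun b hb => ?_
      exact (term D hneu B hB (c a) (d b) (hc a ha) (hd b hb) a b q w x y).2 h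
  rw [map_sum, Finset.sum_apply, Finset.sum_congr rfl fun q _ => h1 q, Finset.sum_ite_eq]
  split_ifs with h
  · rfl
  · by_contra h2
    exact h (hQ x y (Ne.symm h2))

end tens

/-! ## The theorem -/

theorem tork (hInd : Ind0Stmt) (hKr : KrStmt) (hOrs : OrsStmt) (hNeu : NeuStmt) : TorkStmt := by
  classical
  intro H _ T F ho D G _ ι hι I _ C hC n hn z hz1 hz2
  have hS : ∀ i, ∃ S : Finset G, ∀ g, (z i : G → D.K ⊗[F2] D.K) g ≠ 0 →
      ∃ k, ∃ s ∈ S, g = ι k * s := fun i => (z i).2.2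
  choose S hS using hS
  choose J hJ using exists_fps D hKr T ho
  set j := Finset.univ.sup fun i => (S i).sup fun s => J ((z i : G → D.K ⊗[F2] D.K) s) with hj
  have hfp : ∀ i g, (z i : G → D.K ⊗[F2] D.K) g ∈ FPs D (T.M j) := by
    intro i g
    by_cases h0 : (z i : G → D.K ⊗[F2] D.K) g = 0
    · rw [h0]
      exact Submodule.zero_mem _
    · obtain ⟨k, s, hs, rfl⟩ := hS i g h0
      rw [(z i).2.1 k s]
      refine fps_sig D _ (T.normal j) k _ (hJ _ j ?_)
      rw [hj]
      exact (Finset.le_sup (f := fun s => J ((z i : G → D.K ⊗[F2] D.K) s)) hs).trans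
        (Finset.le_sup (f := fun i => (S i).sup fun s => J ((z i : G → D.K ⊗[F2] D.K) s))
          (Finset.mem_univ i))
  have hBn : (T.M j).Normal := T.normal j
  have hB : F.o.Conv (T.M j) := by
    rw [ho]
    exact T.conv j
  let σP := subR (sig D) (FPs D (T.M j)) (fps_sig D _ hBn)
  let z' : I → IndM ι σP := fun i => ⟨fun g => ⟨(z i : G → D.K ⊗[F2] D.K) g, hfp i g⟩, by
    refine ⟨fun k g => ?_, S i, fun g hg => hS i g fun h0 => hg ?_⟩
    · apply Subtype.ext
      exact (z i).2.1 k g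
    · apply Subtype.ext
      exact h0⟩
  have hz' : part C (indR ι σP) z' = 0 := by
    have h1 := part_indMap C ι σP (sig D) (FPs D (T.M j)).subtype (fun _ _ => rfl) z'
    have h2 : (fun i => indMap ι σP (sig D) (FPs D (T.M j)).subtype (fun _ _ => rfl) (z' i)) = z := by
      funext i
      rfl
    rw [h2, hz2] at h1
    funext i
    apply Subtype.ext
    funext g
    apply Subtype.ext
    have h3 := congrFun h1 i
    have h4 := congrArg (fun f : IndM ι (sig D) => (f : G → D.K ⊗[F2] D.K) g) h3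
    exact h4.symm
  let zq : (q : H ⧸ T.M j) → I → IndM ι (qRep H) := fun q i =>
    indMap ι σP (qRep H) (kap D hNeu (T.M j) hB q) (kap_sig D hNeu (T.M j) hB q) (z' i)
  have hzq : ∀ q, part C (indR ι (qRep H)) (zq q) = 0 := by
    intro q
    have h1 := part_indMap C ι σP (qRep H) (kap D hNeu (T.M j) hB q)
      (kap_sig D hNeu (T.M j) hB q) z'
    rw [hz'] at h1
    refine h1.trans ?_
    funext i
    exact map_zero _
  have hy : ∀ q, ∃ y : I → IndM ι (qRep H), (∀ i, C.deg i ≠ n + 1 → y i = 0) ∧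
      part C (indR ι (qRep H)) y = zq q := by
    intro q
    refine hInd G H ι hι I C hC n hn (zq q) (fun i hi => ?_) (hzq q)
    have h1 : z' i = 0 := by
      apply Subtype.ext
      funext g
      apply Subtype.ext
      change (z i : G → D.K ⊗[F2] D.K) g = 0
      rw [hz1 i hi]
      rfl
    change indMap ι σP (qRep H) _ _ (z' i) = 0
    rw [h1, map_zero]
  choose y hy1 hy2 using hy
  -- denominators
  choose XX hXX using exists_fin D
  set X : Finset D.K := Finset.univ.biUnion fun i => (S i).biUnion fun s =>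
    XX ((z i : G → D.K ⊗[F2] D.K) s) with hX
  have hXm : ∀ i, ∀ s ∈ S i, (z i : G → D.K ⊗[F2] D.K) s ∈
      Submodule.span F2 {w | ∃ u ∈ X, ∃ v ∈ X, w = u ⊗ₜ[F2] v} := by
    intro i s hs
    have hsub : XX ((z i : G → D.K ⊗[F2] D.K) s) ⊆ X := by
      intro x hx
      rw [hX]
      exact Finset.mem_biUnion.2 ⟨i, Finset.mem_univ i, Finset.mem_biUnion.2 ⟨s, hs, hx⟩⟩
    refine Submodule.span_mono ?_ (hXX ((z i : G → D.K ⊗[F2] D.K) s))
    rintro w ⟨u, hu, v, hv, h⟩
    exact ⟨u, hsub hu, v, hsub hv, h⟩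
  obtain ⟨⟨s, hs0, hsS, hsX⟩, r, hr0, hrS, hrX⟩ := hOrs H T F ho D j X
  have hQ : ∀ w : D.K ⊗[F2] D.K, ∃ Q : Finset (H ⧸ T.M j),
      w ∈ Submodule.span F2 {w | ∃ u ∈ X, ∃ v ∈ X, w = u ⊗ₜ[F2] v} →
      ∀ x y, Th D (lr D s r w) (x, y) ≠ 0 → ((x * y : H) : H ⧸ T.M j) ∈ Q := by
    intro w
    by_cases hw : w ∈ Submodule.span F2 {w | ∃ u ∈ X, ∃ v ∈ X, w = u ⊗ₜ[F2] v}
    · obtain ⟨Q, hQ⟩ := fin_cls D (T.M j) X s r hsX hrX w hw
      exact ⟨Q, fun _ => hQ⟩
    · exact ⟨∅, fun h => absurd h hw⟩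
  choose QQ hQQ using hQ
  set Q : Finset (H ⧸ T.M j) := Finset.univ.biUnion fun i => (S i).biUnion fun s =>
    QQ ((z i : G → D.K ⊗[F2] D.K) s) with hQd
  have hQ : ∀ i g x y, Th D (lr D s r ((z i : G → D.K ⊗[F2] D.K) g)) (x, y) ≠ 0 →
      ((x * y : H) : H ⧸ T.M j) ∈ Q := by
    intro i g x y h
    by_cases h0 : (z i : G → D.K ⊗[F2] D.K) g = 0
    · rw [h0, map_zero, map_zero] at h
      exact absurd rfl h
    · obtain ⟨k, t, ht, rfl⟩ := hS i g h0
      rw [(z i).2.1 k t] at h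
      change Th D (lr D s r (sig D k _)) (x, y) ≠ 0 at h
      rw [lr_sig, Th_sig] at h
      have h1 := hQQ _ (hXm i t ht) _ _ h
      rw [show x * k * (k⁻¹ * y) = x * y by group] at h1
      rw [hQd]
      exact Finset.mem_biUnion.2 ⟨i, Finset.mem_univ i, Finset.mem_biUnion.2 ⟨t, ht, h1⟩⟩
  obtain ⟨A, c, hc, hsA⟩ := hsS
  obtain ⟨A', d, hd, hrA⟩ := hrS
  -- the intertwiners
  let E : H → H → (((H × H) →₀ F2) →ₗ[F2] (D.K ⊗[F2] D.K)) := fun a b =>
    lr D (s⁻¹ * (c a * D.s a)) ((d b * D.s b) * r⁻¹) ∘ₗ Phi D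
  have hE : ∀ a b h v, E a b (qRep H h v) = sig D h (E a b v) := by
    intro a b h v
    change lr D _ _ (Phi D (qRep H h v)) = sig D h (lr D _ _ (Phi D v))
    rw [Phi_sig, lr_sig]
  let Y : I → IndM ι (sig D) := ∑ q ∈ Q, ∑ a ∈ A, ∑ b ∈ A', fun i =>
    indMap ι (qRep H) (sig D) (E a b) (hE a b)
      (y (((a : H) : H ⧸ T.M j)⁻¹ * q * ((b : H) : H ⧸ T.M j)⁻¹) i)
  refine ⟨Y, fun i hi => ?_, ?_⟩
  · change (∑ q ∈ Q, ∑ a ∈ A, ∑ b ∈ A', fun i => indMap ι (qRep H) (sig D) (E a b) (hE a b)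
      (y (((a : H) : H ⧸ T.M j)⁻¹ * q * ((b : H) : H ⧸ T.M j)⁻¹) i)) i = 0
    simp only [Finset.sum_apply]
    refine Finset.sum_eq_zero fun q _ => Finset.sum_eq_zero fun a _ =>
      Finset.sum_eq_zero fun b _ => ?_
    rw [hy1 _ i hi, map_zero]
  · change part C (indR ι (sig D)) (∑ q ∈ Q, ∑ a ∈ A, ∑ b ∈ A', fun i =>
      indMap ι (qRep H) (sig D) (E a b) (hE a b)
      (y (((a : H) : H ⧸ T.M j)⁻¹ * q * ((b : H) : H ⧸ T.M j)⁻¹) i)) = z
    simp only [map_sum, part_indMap, hy2]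
    funext i
    apply Subtype.ext
    funext g
    simp only [Finset.sum_apply]
    have h1 := split D hNeu (T.M j) hB A A' c d hc hd s r hsA hrA Q
      ⟨(z i : G → D.K ⊗[F2] D.K) g, hfp i g⟩ (fun x y h => hQ i g x y h)
    have h2 := congrArg (lr D s⁻¹ r⁻¹) h1
    rw [lr_lr, inv_mul_cancel₀ hs0, mul_inv_cancel₀ hr0, lr_one] at h2
    simp only [map_sum, lr_lr] at h2
    rw [← h2]
    simp only [AddSubmonoidClass.coe_finsetSum, Finset.sum_apply]
    rfl

end

end Pool.Agent.RTF.H6
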