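import Pool.Agent.Helper6_RTF.Cfg
import Pool.Agent.Helper6_RTF.Tork
import Pool.Agent.Helper6_RTF.Mida
import Pool.Agent.Helper5_RTF.Injk
import Pool.Agent.Helper26_RTF.Kr
import Pool.Agent.Helper26_RTF.Ork
import Pool.Agent.Helper27_RTF.Kex
import Pool.Agent.Helper33_RTF.Cnt
import Pool.Agent.Helper33_RTF.Duak
import Pool.Agent.Helper40_RTF.L2a
import Pool.Agent.Helper47_RTF.Mulf
import Pool.Agent.Helper47_RTF.Ors
import Pool.Agent.Helper50_RTF.Idi
import Pool.Agent.Helper55_RTF.Lak
import Pool.Agent.Helper55_RTF.Uni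
import Pool.Agent.Helper63_RTF.Finr
import Pool.Agent.Helper65_RTF.Csd
import Pool.Agent.Helper66_RTF.Til
import Pool.Agent.Helper75_RTF.L2a
import Pool.Agent.Helper83_RTF.Csn
import Pool.Agent.Helper83_RTF.Fol
import Pool.Agent.Helper93_RTF.Ind0
import Pool.Agent.Helper93_RTF.Sepf
import Pool.Agent.Helper94_RTF.Csi
import Pool.Agent.Helper97_RTF.Invf
import Pool.Agent.Helper92_CD.All

/-!
# Squad RTF: assembly
-/

namespace Pool.Agent.RTF

open Pool.Agent.CD

theorem t_mulf : MulfStmt := H47.mulf CD.H38.t_neu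

theorem t_invf : InvfStmt := H97.invf t_mulf CD.H38.t_neu

theorem t_csi : CsiStmt := H94.csi CD.H38.t_neu

theorem t_csd : CsdStmt := H65.csd CD.H38.t_neu

theorem t_ork : OrkStmt := H26.ork H83.fol t_csd

theorem t_kex : KexStmt :=
  H27.kex CD.H38.t_ser CD.H81.starStmt t_ork t_csi t_csd H83.csn t_invf t_mulf

theorem t_kr : KrStmt := H26.kr t_mulf t_invf

theorem t_ors : OrsStmt := H47.ors H83.fol

theorem t_tork : TorkStmt := H6.tork H93.ind0 t_kr t_ors CD.H38.t_neu

theorem t_mida : MidaStmt := H6.mida H33.duak CD.H97.pdl CD.H56.dbl_stmt CD.H56.ths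

theorem t_l2a : L2aStmt := H75.l2a H55l.lak Pool.Agent.FB.H8.t_low Pool.Agent.FB.H8.t_br

theorem t_injk : InjkStmt := H5.injk t_kr

theorem t_sml : SmlStmt := H40.sml t_injk (H66.til H83.fol) H93.sepf

theorem t_cfg : CfgStmt :=
  H6.cfg t_kex t_tork H50.idi t_mida t_sml t_l2a CD.H38.t_ser

/-- The theorem: a group with a finite aspherical complex with Poincare duality modulo two in
dimension `n` and with a subgroup of finite index which is residually unitriangular. -/
theorem t_finr : FinrStmt :=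
  H63.finr t_cfg H55u.uni H33.cnt CD.H94.rpd CD.H14.rbt

end Pool.Agent.RTF
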