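import Pool.Agent.RTF.Stmts

/-!
# Squad RTF, module CFG: the filtered case of the theorem
-/

namespace Pool.Agent.RTF.H6

open Pool.Agent.Glue Pool.Agent.FB Pool.Agent.CD Pool.Agent.ACT Pool.Agent.RTF

noncomputable section

/-- A group with a filtration has no elements of order two. -/
theorem sq_one {G : Type} [Group G] (T : CF G) (g : G) (h : g * g = 1) : g = 1 := by
  by_contra h1
  obtain ⟨j, hj, h2⟩ := T.exists_level h1
  have h3 := T.mul j g g hj hj
  rw [h, T.chi_one] at h3
  omega

theorem cfg (hKex : KexStmt) (hTork : TorkStmt) (hIdi : IdiStmt) (hMida : MidaStmt)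
    (hSml : SmlStmt) (hL2a : L2aStmt) (hSer : SerStmt) : CfgStmt := by
  intro G _ hT I _ C n hC hPD i hi
  obtain ⟨T⟩ := hT
  obtain ⟨F, hF⟩ := hSer G T.ord
  obtain ⟨D⟩ := hKex G T F hF
  refine hL2a G D.toKA (hSml G T F hF D) I C i ?_
  refine hMida G D.toKA (sq_one T) I C n hC hPD (fun l hl => ?_) i hi
  exact hIdi G I C _ _ l
    (hTork G T F hF D G (MonoidHom.id G) Function.injective_id I C hC l hl)

end

end Pool.Agent.RTF.H6
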