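import Pool.Agent.Helper8_FB.FDefs

/-!
# Residually unitriangular groups and Poincare duality modulo two

Definitions for the statement of the theorem.
-/

namespace Pool.Agent.RSing

open Pool.Agent.Glue Pool.Agent.FB

noncomputable section

/-- `G` is residually unitriangular: every nontrivial element of `G` has a nontrivial image under a
homomorphism from `G` to the group of upper unitriangular integral matrices of some size.  For a
finitely generated group this means that `G` is residually torsion-free nilpotent. -/
def ResiduallyUnitriangular (G : Type) [Group G] : Prop :=
  ∀ g : G, g ≠ 1 → ∃ (m : ℕ) (ρ : G →* Matrix (Fin m) (Fin m) ℤ),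
    (∀ x i j, j ≤ i → ρ x i j = if i = j then 1 else 0) ∧ ρ g ≠ 1

/-! ## Cohomology with coefficients in the group ring over the field with two elements -/

variable {G : Type} [Group G] {I : Type} [Fintype I]

/-- An equivariant cochain with values in the group ring of `G` over the field with two elements
is given by its values `f j` on the basis cells `j`.  The value of its coboundary on the cell `i`
is its value on the boundary of `i`. -/
def cobd (C : Cells G I) (f : I → (G →₀ ZMod 2)) : I → (G →₀ ZMod 2) :=
  fun i => ∑ j, (C.bd i j).coeff.sum fun h c => (c : ZMod 2) • (f j).mapDomain fun x => h * x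

/-- The cochain `f` lives on the cells of dimension `q`. -/
def IsCochain (C : Cells G I) (q : ℕ) (f : I → (G →₀ ZMod 2)) : Prop :=
  ∀ i, C.deg i ≠ q → f i = 0

/-- The `q`-cochain `f` is the coboundary of a cochain of dimension `q - 1`. -/
def IsCobd (C : Cells G I) (q : ℕ) (f : I → (G →₀ ZMod 2)) : Prop :=
  ∃ g : I → (G →₀ ZMod 2), (∀ i, C.deg i + 1 ≠ q → g i = 0) ∧ cobd C g = f

/-- Poincare duality modulo two: the complex has dimension at most `n`, its cohomology with
coefficients in the group ring of `G` over the field with two elements is zero in degrees smaller
than `n`, and it has exactly two elements in degree `n` (the class of `c` is not zero, and the class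
of every `n`-cochain is zero or the class of `c`). -/
structure Duality (C : Cells G I) (n : ℕ) : Prop where
  dim : ∀ i, C.deg i ≤ n
  lower : ∀ q < n, ∀ f, IsCochain C q f → cobd C f = 0 → IsCobd C q f
  top : ∃ c, IsCochain C n c ∧ ¬ IsCobd C n c ∧
    ∀ f, IsCochain C n f → IsCobd C n f ∨ IsCobd C n (f + c)

end

end Pool.Agent.RSing
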