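import Pool.Agent.Helper6_RTF.RDefs
import Pool.Agent.Helper6_RTF.All

/-!
# The theorem for virtually residually unitriangular groups
-/

namespace Pool.Agent.RTF.H6

open Pool.Agent.Glue Pool.Agent.FB Pool.Agent.CD

theorem pd2_of {G : Type} [Group G] {I : Type} [Fintype I] (C : Cells G I) (n : ℕ)
    (h : RSing.Duality C n) : PD2 C n := by
  obtain ⟨c, hc, hn, hf⟩ := h.top
  exact ⟨h.dim, h.lower, ⟨c, hc, hn, hf⟩⟩

theorem res {G : Type} [Group G] {G' : Subgroup G} (hG : G'.FiniteIndex)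
    (hr : RSing.ResiduallyUnitriangular G') {I : Type} [Fintype I]
    (C : Cells G I) {n : ℕ} (hC : Aspherical C) (hD : RSing.Duality C n) {i : ℕ}
    (hi : 2 * i ≠ n) : betti C i = 0 :=
  t_finr G G' hG hr I C n hC (pd2_of C n hD) i hi

end Pool.Agent.RTF.H6
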